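import Mathlib

set_option autoImplicit false

namespace Pool.Agent.H.MP_15d78c_co

open Finset

variable {ι : Type} [DecidableEq ι] {Q : ι → Type} {K : Type} [Field K]

def Dep (I : Finset ι) (g : (∀ α, Q α) → K) : Prop :=
  ∀ x y, (∀ α ∈ I, x α = y α) → g x = g y

theorem Dep.mono {I J : Finset ι} {g : (∀ α, Q α) → K} (h : Dep I g) (hIJ : I ⊆ J) : Dep J g :=
  fun x y hxy => h x y fun α hα => hxy α (hIJ hα)

theorem Dep.mul {I : Finset ι} {g h : (∀ α, Q α) → K} (hg : Dep I g) (hh : Dep I h) :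
    Dep I (g * h) := fun x y hxy => by simp only [Pi.mul_apply, hg x y hxy, hh x y hxy]

theorem dep_one (I : Finset ι) : Dep I (1 : (∀ α, Q α) → K) := fun _ _ _ => rfl

theorem dep_span {I : Finset ι} {S : Set ((∀ α, Q α) → K)} (hS : ∀ g ∈ S, Dep I g)
    {g : (∀ α, Q α) → K} (hg : g ∈ Submodule.span K S) : Dep I g := by
  induction hg using Submodule.span_induction with
  | mem g h => exact hS g h
  | zero => exact fun _ _ _ => rfl
  | add g h _ _ a b => exact fun x y hxy => by simp only [Pi.add_apply, a x y hxy, b x y hxy]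
  | smul c g _ a => exact fun x y hxy => by simp only [Pi.smul_apply, a x y hxy]

def fib (J : Finset ι) (x : ∀ α, Q α) (g : (∀ α, Q α) → K) : (∀ α, Q α) → K :=
  fun y => g (J.piecewise y x)

theorem fib_dep {I : Finset ι} {g : (∀ α, Q α) → K} (h : Dep I g) (J : Finset ι) (x : ∀ α, Q α) :
    Dep (J ∩ I) (fib J x g) := by
  intro y z hyz
  refine h _ _ fun α hα => ?_
  by_cases hJ : α ∈ J
  · simp only [piecewise, if_pos hJ]; exact hyz α (mem_inter.2 ⟨hJ, hα⟩)
  · simp only [piecewise, if_neg hJ]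

theorem fib_dep' (g : (∀ α, Q α) → K) (J : Finset ι) (x : ∀ α, Q α) : Dep J (fib J x g) := by
  intro y z hyz
  unfold fib
  congr 1
  funext α
  by_cases hJ : α ∈ J
  · simp only [piecewise, if_pos hJ]; exact hyz α hJ
  · simp only [piecewise, if_neg hJ]

theorem fib_self {J : Finset ι} {g : (∀ α, Q α) → K} (h : Dep J g) (x : ∀ α, Q α) :
    fib J x g = g := by
  funext y
  exact h _ _ fun α hα => by simp only [piecewise, if_pos hα]

def W (A : Submodule K ((∀ α, Q α) → K)) (J : Finset ι) : Submodule K ((∀ α, Q α) → K) :=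
  Submodule.span K {g | (∃ u v J1 J2, J1 ⊂ J ∧ J2 ⊂ J ∧ Disjoint J1 J2 ∧ Dep J1 u ∧ Dep J2 v ∧
    g = u * v) ∨ (g ∈ A ∧ Dep J g)}

theorem W_dep {A : Submodule K ((∀ α, Q α) → K)} {J : Finset ι} {g : (∀ α, Q α) → K}
    (hg : g ∈ W A J) : Dep J g := by
  refine dep_span ?_ hg
  rintro g (⟨u, v, J1, J2, h1, h2, -, hu, hv, rfl⟩ | ⟨-, h⟩)
  · exact (hu.mono h1.subset).mul (hv.mono h2.subset)
  · exact h

def Psi (p : ((∀ α, Q α) → K) →ₗ[K] ((∀ α, Q α) → K)) (J : Finset ι) :
    ((∀ α, Q α) → K) →ₗ[K] ((∀ α, Q α) → K) where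
  toFun g := fun x => p (fib J x g) x
  map_add' g h := by
    funext x
    have : fib J x (g + h) = fib J x g + fib J x h := rfl
    simp only [this, map_add, Pi.add_apply]
  map_smul' c g := by
    funext x
    have : fib J x (c • g) = c • fib J x g := rfl
    simp only [this, map_smul, Pi.smul_apply, RingHom.id_apply]

inductive Gen (A : Submodule K ((∀ α, Q α) → K)) (U : Finset (Finset ι)) :
    Finset ι → ((∀ α, Q α) → K) → Prop
  | one (s : Finset ι) : Gen A U s 1
  | mul (s B t : Finset ι) (g h : (∀ α, Q α) → K) : Gen A U s g → Disjoint s B → s ∪ B ⊆ t →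
      Dep B h → (h ∈ A ∨ B ∈ U) → Gen A U t (g * h)

def E (A : Submodule K ((∀ α, Q α) → K)) (U : Finset (Finset ι)) (s : Finset ι) :
    Submodule K ((∀ α, Q α) → K) := Submodule.span K {g | Gen A U s g}

theorem Gen.dep {A : Submodule K ((∀ α, Q α) → K)} {U : Finset (Finset ι)} {s : Finset ι}
    {g : (∀ α, Q α) → K} (h : Gen A U s g) : Dep s g := by
  induction h with
  | one s => exact dep_one s
  | mul s B t g h _ _ h3 h4 _ ih =>
    exact (ih.mono (subset_union_left.trans h3)).mul (h4.mono (subset_union_right.trans h3))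

theorem E_mul {A : Submodule K ((∀ α, Q α) → K)} {U : Finset (Finset ι)} {s B t : Finset ι}
    {g h : (∀ α, Q α) → K} (hg : g ∈ E A U s) (h2 : Disjoint s B) (h3 : s ∪ B ⊆ t)
    (h4 : Dep B h) (h5 : h ∈ A ∨ B ∈ U) : g * h ∈ E A U t := by
  induction hg using Submodule.span_induction with
  | mem g hg => exact Submodule.subset_span (Gen.mul s B t g h hg h2 h3 h4 h5)
  | zero => rw [zero_mul]; exact zero_mem _
  | add g g' _ _ a b => rw [add_mul]; exact add_mem a b
  | smul c g _ a => rw [smul_mul_assoc]; exact Submodule.smul_mem _ _ a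

section
variable {A : Submodule K ((∀ α, Q α) → K)} (h1 : 1 ∈ A)
  (hf : ∀ g ∈ A, ∀ J x, fib J x g ∈ A) {J : Finset ι}
  {p : ((∀ α, Q α) → K) →ₗ[K] ((∀ α, Q α) → K)} (hp : ∀ w ∈ W A J, p w = w)
  (hq : ∀ g, p g ∈ W A J)

include hp in
theorem psi_fix {g : (∀ α, Q α) → K} (h : ∀ x, fib J x g ∈ W A J) : Psi p J g = g := by
  funext x
  change p (fib J x g) x = g x
  rw [hp _ (h x)]
  unfold fib
  congr 1
  funext α
  simp only [piecewise, ite_self]

theorem psi_mulc (g : (∀ α, Q α) → K) {h : (∀ α, Q α) → K} {B : Finset ι} (hh : Dep B h)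
    (hd : Disjoint J B) : Psi p J (g * h) = Psi p J g * h := by
  funext x
  change p (fib J x (g * h)) x = p (fib J x g) x * h x
  have : fib J x (g * h) = h x • fib J x g := by
    funext y
    change g _ * h _ = h x * g _
    rw [mul_comm, hh (J.piecewise y x) x fun α hα => by
      simp only [piecewise, if_neg (disjoint_right.1 hd hα)]]
  rw [this, map_smul, Pi.smul_apply, smul_eq_mul, mul_comm]

include hp in
theorem psi_split {g h : (∀ α, Q α) → K} {s B : Finset ι} (hg : Dep s g) (hh : Dep B h)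
    (hd : Disjoint s B) (n1 : ¬ J ⊆ s) (n2 : ¬ J ⊆ B) : Psi p J (g * h) = g * h := by
  refine psi_fix hp fun x => Submodule.subset_span (Or.inl
    ⟨fib J x g, fib J x h, J ∩ s, J ∩ B, ?_, ?_, ?_, fib_dep hg J x, fib_dep hh J x, rfl⟩)
  · exact ⟨inter_subset_left, fun hc => n1 (hc.trans inter_subset_right)⟩
  · exact ⟨inter_subset_left, fun hc => n2 (hc.trans inter_subset_right)⟩
  · exact hd.mono inter_subset_right inter_subset_right

include hp in
theorem psi_out {g : (∀ α, Q α) → K} {s : Finset ι} (hg : Dep s g) (n1 : ¬ J ⊆ s) :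
    Psi p J g = g := by
  have := psi_split hp hg (dep_one ∅) (disjoint_empty_right s) n1
    (fun hc => n1 (hc.trans (empty_subset s)))
  rwa [mul_one] at this

include hf hp in
theorem psi_A {g : (∀ α, Q α) → K} (hg : g ∈ A) : Psi p J g = g :=
  psi_fix hp fun x => Submodule.subset_span (Or.inr ⟨hf g hg J x, fib_dep' g J x⟩)

include h1 hf hp in
theorem psi_mul {g h : (∀ α, Q α) → K} {s B : Finset ι} (hg : Dep s g) (hh : Dep B h)
    (hd : Disjoint s B) : Psi p J (g * h) = Psi p J g * Psi p J h := by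
  have aux : ∀ {g h : (∀ α, Q α) → K} {s B : Finset ι}, Dep B h → Disjoint s B → J ⊆ s →
      Psi p J (g * h) = Psi p J g * Psi p J h := by
    intro g h s B hh hd hs
    have d := hd.mono_left hs
    have := psi_mulc (p := p) 1 hh d
    rw [one_mul, psi_A hf hp h1, one_mul] at this
    rw [psi_mulc g hh d, this]
  by_cases n1 : J ⊆ s
  · exact aux hh hd n1
  by_cases n2 : J ⊆ B
  · rw [mul_comm, aux hg hd.symm n2, mul_comm]
  rw [psi_split hp hg hh hd n1 n2, psi_out hp hg n1, psi_out hp hh n2]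

include h1 hf hp in
theorem psi_prod (P : Finset (Finset ι)) (a : Finset ι → (∀ α, Q α) → K)
    (ha : ∀ I, Dep I (a I)) (hP : ∀ I ∈ P, ∀ I' ∈ P, I ≠ I' → Disjoint I I') :
    Dep (P.biUnion id) (∏ I ∈ P, a I) ∧ Psi p J (∏ I ∈ P, a I) = ∏ I ∈ P, Psi p J (a I) := by
  induction P using Finset.induction_on with
  | empty => exact ⟨dep_one _, by simpa using psi_A hf hp h1⟩
  | insert I P hI ih =>
    obtain ⟨i1, i2⟩ := ih fun I hI I' hI' =>
      hP I (mem_insert_of_mem hI) I' (mem_insert_of_mem hI')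
    rw [prod_insert hI, prod_insert hI, biUnion_insert]
    refine ⟨((ha I).mono subset_union_left).mul (i1.mono subset_union_right), ?_⟩
    rw [psi_mul h1 hf hp (ha I) i1, i2]
    rw [disjoint_biUnion_right]
    intro I' hI'
    exact hP I (mem_insert_self _ _) I' (mem_insert_of_mem hI') (fun e => hI (e ▸ hI'))

include h1 hf hp hq in
theorem psi_gen {U : Finset (Finset ι)} (hU : ∀ B ∈ U, ∀ C, C ⊆ B → C ∈ U)
    (hmax : ∀ B ∈ U, J ⊆ B → B = J) {s : Finset ι} {g : (∀ α, Q α) → K} (h : Gen A U s g) :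
    Psi p J g ∈ E A (U.erase J) s := by
  induction h with
  | one s => rw [psi_A hf hp h1]; exact Submodule.subset_span (Gen.one s)
  | mul s B t g h hg h2 h3 h4 h5 ih =>
    rw [psi_mul h1 hf hp hg.dep h4 h2]
    rcases h5 with h5 | h5
    · rw [psi_A hf hp h5]; exact E_mul ih h2 h3 h4 (Or.inl h5)
    by_cases e : B = J
    · subst e
      have : Psi p B h = p h := by
        funext x
        change p (fib B x h) x = p h x
        rw [fib_self h4]
      rw [this]
      have hw := hq h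
      generalize p h = w at hw
      induction hw using Submodule.span_induction with
      | mem w hw =>
        rcases hw with ⟨u, v, J1, J2, a1, a2, a3, a4, a5, rfl⟩ | ⟨a1, a2⟩
        · rw [← mul_assoc]
          refine E_mul (s := s ∪ J1) (B := J2) (E_mul ih (h2.mono_right a1.subset) Subset.rfl a4
            (Or.inr (mem_erase.2 ⟨a1.ne, hU B h5 _ a1.subset⟩))) ?_ ?_ a5
            (Or.inr (mem_erase.2 ⟨a2.ne, hU B h5 _ a2.subset⟩))
          · exact disjoint_union_left.2 ⟨h2.mono_right a2.subset, a3⟩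
          · refine Subset.trans ?_ h3
            exact union_subset (union_subset_union_right a1.subset)
              (a2.subset.trans subset_union_right)
        · exact E_mul ih h2 h3 a2 (Or.inl a1)
      | zero => rw [mul_zero]; exact zero_mem _
      | add w w' _ _ a b => rw [mul_add]; exact add_mem a b
      | smul c w _ a => rw [mul_smul_comm]; exact Submodule.smul_mem _ _ a
    · rw [psi_out hp h4 fun hc => e (hmax B h5 hc)]
      exact E_mul ih h2 h3 h4 (Or.inr (mem_erase.2 ⟨e, h5⟩))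

end

theorem elim_aux {A : Submodule K ((∀ α, Q α) → K)} (h1 : 1 ∈ A)
    (hm : ∀ g ∈ A, ∀ h ∈ A, g * h ∈ A) (hf : ∀ g ∈ A, ∀ J x, fib J x g ∈ A)
    {k : ℕ} (P : Fin k → Finset (Finset ι))
    (hP : ∀ i, ∀ I ∈ P i, ∀ I' ∈ P i, I ≠ I' → Disjoint I I') (T : (∀ α, Q α) → K) (hT : T ∈ A)
    (n : ℕ) : ∀ U : Finset (Finset ι), U.card = n → (∀ B ∈ U, ∀ C, C ⊆ B → C ∈ U) →
      ∀ a : Fin k → Finset ι → (∀ α, Q α) → K, (∀ i I, a i I ∈ E A U I) →
      T = ∑ i, ∏ I ∈ P i, a i I →
      ∃ b : Fin k → Finset ι → (∀ α, Q α) → K, (∀ i I, Dep I (b i I) ∧ b i I ∈ A) ∧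
        T = ∑ i, ∏ I ∈ P i, b i I := by
  induction n with
  | zero =>
    intro U hc _ a ha hs
    rw [card_eq_zero] at hc
    subst hc
    refine ⟨a, fun i I => ⟨dep_span (fun g hg => Gen.dep hg) (ha i I), ?_⟩, hs⟩
    refine Submodule.span_le.2 ?_ (ha i I)
    intro g hg
    change Gen A ∅ I g at hg
    clear ha
    induction hg with
    | one s => exact h1
    | mul s B t g h _ _ _ _ h5 ih => exact hm g ih h (h5.resolve_right (notMem_empty _))
  | succ n ih =>
    intro U hc hU a ha hs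
    obtain ⟨J, hJ, hmax⟩ := exists_max_image U card (card_pos.1 (by omega))
    have hmax' : ∀ B ∈ U, J ⊆ B → B = J := fun B hB h =>
      (eq_of_subset_of_card_le h (hmax B hB)).symm
    obtain ⟨q, hq⟩ := LinearMap.exists_leftInverse_of_injective (W A J).subtype
      (Submodule.ker_subtype _)
    have hp : ∀ w ∈ W A J, ((W A J).subtype ∘ₗ q) w = w := by
      intro w hw
      have := LinearMap.congr_fun hq ⟨w, hw⟩
      exact congrArg Subtype.val this
    have hq' : ∀ g, ((W A J).subtype ∘ₗ q) g ∈ W A J := fun g => (q g).2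
    refine ih (U.erase J) (by rw [card_erase_of_mem hJ]; omega) ?_
      (fun i I => Psi ((W A J).subtype ∘ₗ q) J (a i I)) ?_ ?_
    · intro B hB C hC
      obtain ⟨b1, b2⟩ := mem_erase.1 hB
      exact mem_erase.2 ⟨fun e => b1 (hmax' B b2 (e ▸ hC)), hU B b2 C hC⟩
    · intro i I
      have := ha i I
      generalize a i I = g at this
      induction this using Submodule.span_induction with
      | mem g hg => exact psi_gen h1 hf hp hq' hU hmax' hg
      | zero => rw [map_zero]; exact zero_mem _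
      | add g g' _ _ a b => rw [map_add]; exact add_mem a b
      | smul c g _ a => rw [map_smul]; exact Submodule.smul_mem _ _ a
    · rw [← psi_A hf hp hT, hs, map_sum]
      exact sum_congr rfl fun i _ => (psi_prod h1 hf hp (P i) (a i)
        (fun I => dep_span (fun g hg => Gen.dep hg) (ha i I)) (hP i)).2

theorem elim [Fintype ι] {A : Submodule K ((∀ α, Q α) → K)} (h1 : 1 ∈ A)
    (hm : ∀ g ∈ A, ∀ h ∈ A, g * h ∈ A) (hf : ∀ g ∈ A, ∀ J x, fib J x g ∈ A)
    {k : ℕ} (P : Fin k → Finset (Finset ι))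
    (hP : ∀ i, ∀ I ∈ P i, ∀ I' ∈ P i, I ≠ I' → Disjoint I I') (T : (∀ α, Q α) → K) (hT : T ∈ A)
    (a : Fin k → Finset ι → (∀ α, Q α) → K) (ha : ∀ i I, Dep I (a i I))
    (hs : T = ∑ i, ∏ I ∈ P i, a i I) :
    ∃ b : Fin k → Finset ι → (∀ α, Q α) → K, (∀ i I, Dep I (b i I) ∧ b i I ∈ A) ∧
      T = ∑ i, ∏ I ∈ P i, b i I := by
  refine elim_aux h1 hm hf P hP T hT _ univ rfl (fun _ _ _ _ => mem_univ _) a (fun i I => ?_) hs
  have := Gen.mul (A := A) (U := univ) ∅ I I 1 (a i I) (Gen.one ∅) (disjoint_empty_left _)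
    (by simp) (ha i I) (Or.inr (mem_univ _))
  rw [one_mul] at this
  exact Submodule.subset_span this

end Pool.Agent.H.MP_15d78c_co
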