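import Mathlib
import Pool.Agent.H.MP_15d78c_co.A

set_option autoImplicit false

namespace Pool.Agent.H.MP_15d78c_co

open Finset Filter

theorem span_pts {K Y ν : Type} [Field K] [Nonempty Y] [Fintype ν] (v : Y → ν → K) :
    ∃ y : Fin (Fintype.card ν) → Y, ∀ w : ν → K, (∀ r, ∑ t, w t * v (y r) t = 0) →
      ∀ z, ∑ t, w t * v z t = 0 := by
  classical
  obtain ⟨b, hb, hs, hl⟩ := exists_linearIndependent K (Set.range v)
  have hfin : Finite b := hl.finite
  have := Fintype.ofFinite b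
  have hc : Fintype.card b ≤ Fintype.card (Fin (Fintype.card ν)) := by
    have := hl.fintype_card_le_finrank
    simpa using this
  obtain ⟨e⟩ := Function.Embedding.nonempty_of_card_le hc
  choose g hg using fun β : b => hb β.2
  refine ⟨Function.extend e g (fun _ => Classical.arbitrary Y), fun w hw z => ?_⟩
  have hz : v z ∈ Submodule.span K b := by rw [hs]; exact Submodule.subset_span ⟨z, rfl⟩
  generalize v z = u at hz
  induction hz using Submodule.span_induction with
  | mem u hu =>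
    have := hw (e ⟨u, hu⟩)
    rwa [e.injective.extend_apply, hg] at this
  | zero => simp
  | add u u' _ _ a b => simp only [Pi.add_apply, mul_add, sum_add_distrib, a, b, add_zero]
  | smul c u _ a =>
    simp only [Pi.smul_apply, smul_eq_mul, mul_left_comm _ c, ← mul_sum, a, mul_zero]

section
variable {J : Type} (U : Ultrafilter J) (F : J → Type) [∀ j, Field (F j)]

def UI : Ideal (∀ j, F j) where
  carrier := {u | ∀ᶠ j in (U : Filter J), u j = 0}
  add_mem' := by
    intro a b ha hb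
    filter_upwards [ha, hb] with j h1 h2
    simp [h1, h2]
  zero_mem' := Eventually.of_forall fun _ => rfl
  smul_mem' := by
    intro c a ha
    filter_upwards [ha] with j h1
    simp [h1]

theorem UI_max : (UI U F).IsMaximal := by
  rw [Ideal.isMaximal_iff]
  constructor
  · intro h
    obtain ⟨j, hj⟩ := Eventually.exists h
    exact one_ne_zero hj
  · intro I x hI hx hxI
    have h1 : ∀ᶠ j in (U : Filter J), ¬ x j = 0 := Ultrafilter.eventually_not.2 hx
    have h2 : (1 - (fun j => (x j)⁻¹) * x) ∈ UI U F := by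
      filter_upwards [h1] with j hj
      simp [hj]
    have := I.add_mem (hI h2) (I.mul_mem_left (fun j => (x j)⁻¹) hxI)
    simpa using this

theorem UI_eq (u v : ∀ j, F j) : Ideal.Quotient.mk (UI U F) u = Ideal.Quotient.mk (UI U F) v ↔
    ∀ᶠ j in (U : Filter J), u j = v j := by
  rw [Ideal.Quotient.eq]
  change (∀ᶠ j in (U : Filter J), (u - v) j = 0) ↔ _
  simp only [Pi.sub_apply, sub_eq_zero]

end

section
variable {J : Type} (m : J → ℕ) (K : ℕ → Type) [∀ n, Field (K n)] (Y : ℕ → Type)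

def ZP (D : ∀ j, Y (m j) → K (m j)) : Prop :=
  ∃ (ν : Type) (_ : Fintype ν) (w : ∀ j, ν → K (m j)) (H : ∀ n, Y n → ν → K n),
    ∀ j y, D j y = ∑ t, w j t * H (m j) y t

variable {m K Y}

theorem ZP.add {D D' : ∀ j, Y (m j) → K (m j)} (h : ZP m K Y D) (h' : ZP m K Y D') :
    ZP m K Y (D + D') := by
  obtain ⟨ν, _, w, H, e⟩ := h
  obtain ⟨ν', _, w', H', e'⟩ := h'
  refine ⟨ν ⊕ ν', inferInstance, fun j => Sum.elim (w j) (w' j),
    fun n y => Sum.elim (H n y) (H' n y), fun j y => ?_⟩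
  simp [Fintype.sum_sum_type, e, e']

theorem ZP.mul {D D' : ∀ j, Y (m j) → K (m j)} (h : ZP m K Y D) (h' : ZP m K Y D') :
    ZP m K Y (D * D') := by
  obtain ⟨ν, _, w, H, e⟩ := h
  obtain ⟨ν', _, w', H', e'⟩ := h'
  refine ⟨ν × ν', inferInstance, fun j t => w j t.1 * w' j t.2,
    fun n y t => H n y t.1 * H' n y t.2, fun j y => ?_⟩
  simp only [Pi.mul_apply, e, e', Fintype.sum_prod_type, sum_mul_sum]
  exact sum_congr rfl fun _ _ => sum_congr rfl fun _ _ => by ring

theorem ZP.const (c : ∀ j, K (m j)) : ZP m K Y (fun j _ => c j) :=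
  ⟨Unit, inferInstance, fun j _ => c j, fun _ _ _ => 1, fun j y => by simp⟩

theorem ZP.int (H : ∀ n, Y n → K n) : ZP m K Y (fun j => H (m j)) :=
  ⟨Unit, inferInstance, fun _ _ => 1, fun n y _ => H n y, fun j y => by simp⟩

theorem ZP.comp {D : ∀ j, Y (m j) → K (m j)} (h : ZP m K Y D) (φ : ∀ n, Y n → Y n) :
    ZP m K Y (fun j y => D j (φ _ y)) := by
  obtain ⟨ν, _, w, H, e⟩ := h
  exact ⟨ν, inferInstance, w, fun n y => H n (φ n y), fun j y => e j _⟩

def ZS : Subring (∀ j, Y (m j) → K (m j)) where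
  carrier := {D | ZP m K Y D}
  add_mem' := ZP.add
  mul_mem' := ZP.mul
  zero_mem' := ZP.const 0
  one_mem' := ZP.const 1
  neg_mem' := by
    intro D h
    have := (ZP.const (Y := Y) (-1 : ∀ j, K (m j))).mul h
    have e : -D = (fun j _ => (-1 : ∀ j, K (m j)) j) * D := by
      funext j y
      simp
    rw [e]
    exact this

theorem transfer [∀ n, Nonempty (Y n)] (U : Ultrafilter J) {D : ∀ j, Y (m j) → K (m j)}
    (h : ZP m K Y D) (h0 : ∀ x : ∀ n, Y n, ∀ᶠ j in (U : Filter J), D j (x (m j)) = 0) :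
    ∃ j, ∀ y, D j y = 0 := by
  obtain ⟨ν, _, w, H, e⟩ := h
  choose y hy using fun n => span_pts (H n)
  obtain ⟨j, hj⟩ := (eventually_all.2 fun r => h0 (fun n => y n r)).exists
  refine ⟨j, fun z => ?_⟩
  rw [e]
  exact hy _ _ (fun r => by rw [← e]; exact hj r) z

end

theorem main {ι : Type} [DecidableEq ι] [Fintype ι] {C : Type} [Finite C] (k : C → ℕ)
    (P : ∀ c, Fin (k c) → Finset (Finset ι))
    (hP : ∀ c i, ∀ I ∈ P c i, ∀ I' ∈ P c i, I ≠ I' → Disjoint I I')
    (K : ℕ → Type) [∀ n, Field (K n)] (Q : ℕ → ι → Type) [∀ n α, Nonempty (Q n α)]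
    (T : ∀ n, (∀ α, Q n α) → K n)
    (h : ∀ n (X : ∀ α, Finset (Q n α)), (∀ α, (X α).card ≤ n) →
      ∃ (c : C) (a : Fin (k c) → Finset ι → (∀ α, Q n α) → K n), (∀ i I, Dep I (a i I)) ∧
        ∀ x, (∀ α, x α ∈ X α) → T n x = ∑ i, ∏ I ∈ P c i, a i I x) :
    ∃ (n : ℕ) (c : C) (a : Fin (k c) → Finset ι → (∀ α, Q n α) → K n), (∀ i I, Dep I (a i I)) ∧
        ∀ x, T n x = ∑ i, ∏ I ∈ P c i, a i I x := by
  classical
  let J := ∀ α, Finset (∀ n, Q n α)
  let m : J → ℕ := fun j => ∑ α, (j α).card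
  let U : Ultrafilter J := Ultrafilter.of atTop
  have hU : ∀ x : ∀ α n, Q n α, ∀ᶠ j in (U : Filter J), ∀ α, x α ∈ j α := by
    intro x
    refine Ultrafilter.of_le atTop ?_
    filter_upwards [eventually_ge_atTop (fun α => ({x α} : Finset _))] with j hj α
    exact hj α (mem_singleton_self _)
  have h1 := fun j : J => h (m j) (fun α => (j α).image fun q => q (m j)) fun α =>
    card_image_le.trans (single_le_sum (f := fun α => (j α).card) (fun _ _ => Nat.zero_le _)
      (mem_univ α))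
  obtain ⟨c, hc⟩ := Ultrafilter.eventually_exists_iff.1 (Eventually.of_forall (f := U) h1)
  have h2 : ∀ j : J, ∃ a : Fin (k c) → Finset ι → (∀ α, Q (m j) α) → K (m j),
      (∀ i I, Dep I (a i I)) ∧
      ((∃ a : Fin (k c) → Finset ι → (∀ α, Q (m j) α) → K (m j), (∀ i I, Dep I (a i I)) ∧
        ∀ x, (∀ α, x α ∈ (j α).image fun q => q (m j)) → T _ x = ∑ i, ∏ I ∈ P c i, a i I x) →
        ∀ x, (∀ α, x α ∈ (j α).image fun q => q (m j)) → T _ x = ∑ i, ∏ I ∈ P c i, a i I x) := by
    intro j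
    by_cases e : ∃ a : Fin (k c) → Finset ι → (∀ α, Q (m j) α) → K (m j),
        (∀ i I, Dep I (a i I)) ∧
        ∀ x, (∀ α, x α ∈ (j α).image fun q => q (m j)) → T _ x = ∑ i, ∏ I ∈ P c i, a i I x
    · obtain ⟨a, a1, a2⟩ := e
      exact ⟨a, a1, fun _ => a2⟩
    · exact ⟨fun _ _ => 1, fun _ I => dep_one I, fun e' => absurd e' e⟩
  choose a a1 a2 using h2
  have := UI_max U (fun j => K (m j))
  let _ : Field ((∀ j, K (m j)) ⧸ UI U (fun j => K (m j))) := Ideal.Quotient.field _
  let Λ : (∀ j, (∀ α, Q (m j) α) → K (m j)) →+*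
      ((∀ α, ∀ n, Q n α) → (∀ j, K (m j)) ⧸ UI U (fun j => K (m j))) :=
    RingHom.pi fun x => (Ideal.Quotient.mk _).comp (RingHom.pi fun j =>
      (Pi.evalRingHom (fun _ : (∀ α, Q (m j) α) => K (m j)) (fun α => x α (m j))).comp
        (Pi.evalRingHom (fun j => (∀ α, Q (m j) α) → K (m j)) j))
  have hΛ : ∀ D x, Λ D x = Ideal.Quotient.mk _ (fun j => D j (fun α => x α (m j))) :=
    fun _ _ => rfl
  let A : Submodule ((∀ j, K (m j)) ⧸ UI U (fun j => K (m j)))
      ((∀ α, ∀ n, Q n α) → (∀ j, K (m j)) ⧸ UI U (fun j => K (m j))) :=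
    { carrier := {g | ∃ D, ZP m K (fun n => ∀ α, Q n α) D ∧ Λ D = g}
      add_mem' := by
        rintro _ _ ⟨D, d, rfl⟩ ⟨D', d', rfl⟩
        exact ⟨D + D', d.add d', map_add _ _ _⟩
      zero_mem' := ⟨0, ZP.const 0, map_zero _⟩
      smul_mem' := by
        rintro s _ ⟨D, d, rfl⟩
        obtain ⟨w, rfl⟩ := Ideal.Quotient.mk_surjective s
        exact ⟨(fun j _ => w j) * D, (ZP.const w).mul d, by rw [map_mul]; rfl⟩ }
  have hfib : ∀ D I (q : ∀ α n, Q n α), fib I q (Λ D)
      = Λ (fun j y => D j (I.piecewise y fun α => q α (m j))) := by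
    intro D I q
    funext x
    rw [fib, hΛ, hΛ]
    congr 1
    funext j
    congr 1
    funext α
    by_cases e : α ∈ I <;> simp only [piecewise, e, if_true, if_false]
  obtain ⟨b, hb, hs⟩ := elim (A := A) ⟨1, ZP.const 1, map_one _⟩
    (by
      rintro _ ⟨D, d, rfl⟩ _ ⟨D', d', rfl⟩
      exact ⟨D * D', d.mul d', map_mul _ _ _⟩)
    (by
      rintro _ ⟨D, d, rfl⟩ I q
      exact ⟨_, d.comp (fun n y => I.piecewise y fun α => q α n), (hfib D I q).symm⟩)
    (P c) (hP c) (Λ fun j => T (m j)) ⟨_, ZP.int T, rfl⟩ (fun i I => Λ fun j => a j i I)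
    (by
      intro i I x y hxy
      rw [hΛ, hΛ]
      congr 1
      funext j
      exact a1 j i I _ _ fun α hα => by rw [hxy α hα])
    (by
      simp only [← map_prod, ← map_sum]
      funext x
      rw [hΛ, hΛ, UI_eq]
      filter_upwards [hc, hU x] with j e1 e2
      rw [a2 j e1 _ fun α => mem_image_of_mem _ (e2 α)]
      simp only [Finset.sum_apply, Finset.prod_apply])
  choose D d1 d2 using fun i I => (hb i I).2
  let q : ∀ α n, Q n α := fun α n => Classical.arbitrary _
  let D' : Fin (k c) → Finset ι → ∀ j, (∀ α, Q (m j) α) → K (m j) :=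
    fun i I j y => D i I j (I.piecewise y fun α => q α (m j))
  have e1 : ∀ i I, b i I = Λ (D' i I) := by
    intro i I
    rw [← fib_self (hb i I).1 q, ← d2, hfib]
  have z : ((fun j => T (m j)) - ∑ i, ∏ I ∈ P c i, D' i I) ∈
      ZS (m := m) (K := K) (Y := fun n => ∀ α, Q n α) :=
    sub_mem (ZP.int T) (sum_mem fun i _ => prod_mem fun I _ =>
      (d1 i I).comp (fun n y => I.piecewise y fun α => q α n))
  obtain ⟨j, hj⟩ := transfer U z (by
    intro x
    have : Λ ((fun j => T (m j)) - ∑ i, ∏ I ∈ P c i, D' i I) = Λ 0 := by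
      rw [map_sub, map_zero, hs, map_sum]
      simp only [map_prod, e1, sub_self]
    have := congrFun this (fun α n => x n α)
    rw [hΛ, hΛ, UI_eq] at this
    exact this)
  refine ⟨m j, c, fun i I => D' i I j, fun i I => fib_dep' (D i I j) I _, fun x => ?_⟩
  have := hj x
  simp only [Pi.sub_apply, Finset.sum_apply, Finset.prod_apply, sub_eq_zero] at this
  exact this

end Pool.Agent.H.MP_15d78c_co
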